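import Pool.Agent.TH76.LehP.GoldA

/-! Many primes modulo which `b` has an order larger than `t ^ ϑ`, `ϑ > 1 / 2`. -/

set_option autoImplicit false

open Finset Filter

namespace Pool.Agent.Helper500_CC

open Pool.Agent.TH76.LehP

lemma two_pow_card (n : ℕ) (hn : n ≠ 0) : 2 ^ n.primeFactors.card ≤ n := by
  calc 2 ^ n.primeFactors.card = ∏ _p ∈ n.primeFactors, 2 := by rw [prod_const]
    _ ≤ ∏ p ∈ n.primeFactors, p := prod_le_prod' fun p hp => (Nat.prime_of_mem_primeFactors hp).two_le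
    _ ≤ n := Nat.le_of_dvd (Nat.pos_of_ne_zero hn) (Nat.prod_primeFactors_dvd n)

lemma pow_sub_ne {b : ℤ} (hb : 2 ≤ |b|) {d : ℕ} (hd : 1 ≤ d) : b ^ d - 1 ≠ 0 := by
  intro h
  have h1 : b ^ d = 1 := by linarith
  have h2 : |b| ^ d = 1 := by rw [← abs_pow, h1, abs_one]
  have h3 : |b| ^ 1 ≤ |b| ^ d := pow_le_pow_right₀ (by linarith) hd
  rw [pow_one, h2] at h3
  linarith

lemma card_bad {b : ℤ} (hb : 2 ≤ |b|) {d : ℕ} (hd : 1 ≤ d) :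
    (b ^ d - 1).natAbs.primeFactors.card ≤ (b.natAbs + 1) * d := by
  have h0 : (b ^ d - 1).natAbs ≠ 0 := by
    rw [Ne, Int.natAbs_eq_zero]
    exact pow_sub_ne hb hd
  have h1 := two_pow_card _ h0
  have h2 : (b ^ d - 1).natAbs ≤ b.natAbs ^ d + 1 := by
    calc (b ^ d - 1).natAbs ≤ (b ^ d).natAbs + (1 : ℤ).natAbs := Int.natAbs_sub_le _ _
      _ = b.natAbs ^ d + 1 := by rw [Int.natAbs_pow]; rfl
  have h3 : b.natAbs ^ d ≤ 2 ^ (b.natAbs * d) := by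
    rw [pow_mul]
    exact Nat.pow_le_pow_left (Nat.lt_two_pow_self).le d
  have h4 : b.natAbs ^ d + 1 ≤ 2 ^ (b.natAbs * d + 1) := by
    have : 1 ≤ 2 ^ (b.natAbs * d) := Nat.one_le_two_pow
    rw [pow_succ]; omega
  have h5 : 2 ^ (b ^ d - 1).natAbs.primeFactors.card ≤ 2 ^ (b.natAbs * d + 1) := by omega
  have h6 := (Nat.pow_le_pow_iff_right (by norm_num : 1 < 2)).1 h5
  nlinarith

/-- the bad primes -/
noncomputable def Bd (b c : ℤ) (D : ℕ) : Finset ℕ :=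
  (Icc 1 D).biUnion (fun d => (b ^ d - 1).natAbs.primeFactors) ∪ (b * c).natAbs.primeFactors

lemma Bd_card {b : ℤ} (hb : 2 ≤ |b|) (c : ℤ) (D : ℕ) :
    (Bd b c D).card ≤ (b.natAbs + 1) * D ^ 2 + (b * c).natAbs.primeFactors.card := by
  unfold Bd
  refine (card_union_le _ _).trans (Nat.add_le_add_right ?_ _)
  refine card_biUnion_le.trans ?_
  calc ∑ d ∈ Icc 1 D, (b ^ d - 1).natAbs.primeFactors.card ≤ ∑ d ∈ Icc 1 D, (b.natAbs + 1) * D := by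
        refine sum_le_sum fun d hd => ?_
        rw [mem_Icc] at hd
        exact (card_bad hb hd.1).trans (Nat.mul_le_mul_left _ hd.2)
    _ = _ := by rw [sum_const, Nat.card_Icc, smul_eq_mul, Nat.add_sub_cancel]; ring

lemma good_of {b c : ℤ} (hb : 2 ≤ |b|) (hc : c ≠ 0) {t y D p q : ℕ} (hp : p.Prime) (hpt : p ≤ t)
    (hq : q.Prime) (hyq : y < q) (hqp : q ∣ p - 1) (hD : ∀ d : ℕ, d * q < t → d ≤ D)
    (hpB : p ∉ Bd b c D) :
    ¬ (p : ℤ) ∣ b ∧ ¬ (p : ℤ) ∣ c ∧ ∀ m : ℕ, 1 ≤ m → m ≤ y → ¬ (p : ℤ) ∣ b ^ m - 1 := by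
  have hp1 : Fact p.Prime := ⟨hp⟩
  have hb0 : b ≠ 0 := by rintro rfl; simp at hb
  have hbc : (b * c).natAbs ≠ 0 := by
    rw [Ne, Int.natAbs_eq_zero]; exact mul_ne_zero hb0 hc
  have hnd : ¬ (p : ℤ) ∣ b * c := by
    intro h
    apply hpB
    unfold Bd
    rw [mem_union]
    right
    rw [Nat.mem_primeFactors]
    exact ⟨hp, Int.natCast_dvd.1 h, hbc⟩
  have hnb : ¬ (p : ℤ) ∣ b := fun h => hnd (dvd_mul_of_dvd_left h c)
  refine ⟨hnb, fun h => hnd (dvd_mul_of_dvd_right h b), ?_⟩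
  intro m hm1 hmy hdvd
  have hbz : (b : ZMod p) ≠ 0 := by
    rwa [Ne, ZMod.intCast_zmod_eq_zero_iff_dvd]
  have h1 : (b : ZMod p) ^ m = 1 := by
    have := (ZMod.intCast_zmod_eq_zero_iff_dvd _ p).2 hdvd
    push_cast at this
    exact sub_eq_zero.1 this
  have h2 : (b : ZMod p) ^ (p - 1) = 1 := ZMod.pow_card_sub_one_eq_one hbz
  have h3 : (b : ZMod p) ^ (m.gcd (p - 1)) = 1 := pow_gcd_eq_one.2 ⟨h1, h2⟩
  obtain ⟨d, hd⟩ : ∃ d, d = m.gcd (p - 1) := ⟨_, rfl⟩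
  rw [← hd] at h3
  have hd1 : 1 ≤ d := by rw [hd]; exact Nat.gcd_pos_of_pos_left _ hm1
  have hdm : d ≤ m := by rw [hd]; exact Nat.gcd_le_left _ hm1
  have hdp : d ∣ p - 1 := by rw [hd]; exact Nat.gcd_dvd_right _ _
  have hp2 := hp.two_le
  obtain ⟨k, hk⟩ := hdp
  have hqk : q ∣ k := by
    rw [hk] at hqp
    rcases (Nat.Prime.dvd_mul hq).1 hqp with h | h
    · have := Nat.le_of_dvd hd1 h
      omega
    · exact h
  have hk0 : k ≠ 0 := by rintro rfl; omega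
  have hqk' : q ≤ k := Nat.le_of_dvd (Nat.pos_of_ne_zero hk0) hqk
  have hdq : d * q ≤ p - 1 := by
    rw [hk]; exact Nat.mul_le_mul_left _ hqk'
  have hdD : d ≤ D := hD d (by omega)
  apply hpB
  unfold Bd
  rw [mem_union]
  left
  rw [mem_biUnion]
  refine ⟨d, mem_Icc.2 ⟨hd1, hdD⟩, ?_⟩
  rw [Nat.mem_primeFactors]
  refine ⟨hp, ?_, ?_⟩
  · rw [← Int.natCast_dvd, ← ZMod.intCast_zmod_eq_zero_iff_dvd]
    push_cast
    rw [h3, sub_self]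
  · rw [Ne, Int.natAbs_eq_zero]
    exact pow_sub_ne hb hd1

/-- a positive proportion of the primes is good -/
theorem good : ∃ ϑ c₀ : ℝ, 1 / 2 < ϑ ∧ ϑ ≤ 3 / 4 ∧ 0 < c₀ ∧ ∀ b c : ℤ, 2 ≤ |b| → c ≠ 0 →
    ∃ T₀ : ℕ, ∀ t : ℕ, T₀ ≤ t → ∃ P : Finset ℕ, (∀ q ∈ P, q.Prime ∧ q ≤ t ∧ ¬ (q : ℤ) ∣ b ∧
      ¬ (q : ℤ) ∣ c ∧ ∀ m : ℕ, 1 ≤ m → (m : ℝ) < (t : ℝ) ^ ϑ → ¬ (q : ℤ) ∣ b ^ m - 1) ∧
      c₀ * (t / Real.log t) ≤ P.card := by
  classical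
  obtain ⟨c₀, κ, hc₀, hκ, hκ4, T, h⟩ := goldA
  refine ⟨1 / 2 + κ, c₀ / 2, by linarith, by linarith, by linarith, fun b c hb hc => ?_⟩
  obtain ⟨M, hM⟩ : ∃ M : ℝ, M = (b.natAbs : ℝ) + 1 := ⟨_, rfl⟩
  have hM0 : 0 < M := by rw [hM]; positivity
  obtain ⟨K, hK⟩ : ∃ K : ℝ, K = ((b * c).natAbs.primeFactors.card : ℝ) + 1 := ⟨_, rfl⟩
  have hK0 : 0 < K := by rw [hK]; positivity
  have hev : ∀ᶠ x : ℝ in atTop, 3 ≤ x ∧ Real.log x ≤ c₀ / (4 * M) * x ^ (2 * κ) ∧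
      Real.log x ≤ c₀ / (4 * K) * x ^ (1 : ℝ) ∧ 2 ≤ x ^ κ := by
    have e1 := (isLittleO_log_rpow_atTop (by linarith : 0 < 2 * κ)).bound
      (show 0 < c₀ / (4 * M) by positivity)
    have e2 := (isLittleO_log_rpow_atTop (one_pos : (0 : ℝ) < 1)).bound
      (show 0 < c₀ / (4 * K) by positivity)
    have e3 := (tendsto_rpow_atTop hκ).eventually_ge_atTop 2
    filter_upwards [eventually_ge_atTop 3, e1, e2, e3] with x h1 h2 h3 h4
    have hx0 : 0 < x := by linarith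
    rw [Real.norm_of_nonneg (Real.log_nonneg (by linarith)),
      Real.norm_of_nonneg (Real.rpow_nonneg hx0.le _)] at h2 h3
    exact ⟨h1, h2, h3, h4⟩
  obtain ⟨x₀, hx₀⟩ := eventually_atTop.1 hev
  refine ⟨max T ⌈x₀⌉₊, fun t ht => ?_⟩
  have htT : T ≤ t := (le_max_left _ _).trans ht
  have htx : x₀ ≤ (t : ℝ) := (Nat.le_ceil x₀).trans (by exact_mod_cast (le_max_right _ _).trans ht)
  obtain ⟨h3, hl1, hl2, hk2⟩ := hx₀ _ htx
  have ht0 : (0 : ℝ) < t := by linarith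
  have hlog : 0 < Real.log t := Real.log_pos (by linarith)
  obtain ⟨y, hy⟩ : ∃ y : ℕ, y = ⌊(t : ℝ) ^ (1 / 2 + κ)⌋₊ := ⟨_, rfl⟩
  have hyle : (y : ℝ) ≤ (t : ℝ) ^ (1 / 2 + κ) := by
    rw [hy]; exact Nat.floor_le (Real.rpow_nonneg ht0.le _)
  have hylt : (t : ℝ) ^ (1 / 2 + κ) < y + 1 := by
    rw [hy]; exact Nat.lt_floor_add_one _
  have hsq : (t : ℝ) ^ (1 / 2 : ℝ) * (t : ℝ) ^ (1 / 2 : ℝ) = t := by
    rw [← Real.rpow_add ht0]; norm_num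
  have hs1 : 1 ≤ (t : ℝ) ^ (1 / 2 : ℝ) := Real.one_le_rpow (by linarith) (by norm_num)
  have hys : (t : ℝ) ^ (1 / 2 : ℝ) ≤ y := by
    have h4 : (t : ℝ) ^ (1 / 2 + κ) = (t : ℝ) ^ (1 / 2 : ℝ) * (t : ℝ) ^ κ := Real.rpow_add ht0 _ _
    nlinarith
  have hty : t ≤ y ^ 2 := by
    have : (t : ℝ) ≤ (y : ℝ) ^ 2 := by
      calc (t : ℝ) = (t : ℝ) ^ (1 / 2 : ℝ) * (t : ℝ) ^ (1 / 2 : ℝ) := hsq.symm
        _ ≤ (y : ℝ) * y := mul_le_mul hys hys (by positivity) (by positivity)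
        _ = _ := by ring
    exact_mod_cast this
  have hg := h t y htT hty hyle
  obtain ⟨Z, hZ⟩ : ∃ Z : ℕ, Z = ⌊(t : ℝ) ^ (1 - κ)⌋₊ := ⟨_, rfl⟩
  rw [← hZ] at hg
  obtain ⟨U, hU⟩ : ∃ U : Finset ℕ, U = ((Ioc y Z).filter (fun q => q.Prime)).biUnion (P1 t) := ⟨_, rfl⟩
  have hUcard : (U.card : ℝ) = ∑ q ∈ (Ioc y Z).filter (fun q => q.Prime), ((P1 t q).card : ℝ) := by
    rw [hU, card_biUnion]
    · push_cast; rfl
    · intro q hq q' hq' hne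
      rw [Function.onFun, Finset.disjoint_left]
      intro p hp hp'
      simp only [coe_filter, Set.mem_ofPred_eq, mem_Ioc] at hq hq'
      simp only [P1, mem_filter, mem_Icc] at hp hp'
      have h1 : q * q' ∣ p - 1 :=
        Nat.Coprime.mul_dvd_of_dvd_of_dvd ((Nat.coprime_primes hq.2 hq'.2).2 hne) hp.2.2 hp'.2.2
      have h2 := hp.2.1.two_le
      have h3 := Nat.le_of_dvd (by omega) h1
      have h4 : (y + 1) * (y + 1) ≤ q * q' := Nat.mul_le_mul hq.1.1 hq'.1.1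
      have h5 : (y + 1) * (y + 1) = y ^ 2 + 2 * y + 1 := by ring
      have h6 := hp.1.2
      omega
  obtain ⟨D, hD⟩ : ∃ D : ℕ, D = ⌊(t : ℝ) ^ (1 / 2 - κ)⌋₊ := ⟨_, rfl⟩
  have hDle : (D : ℝ) ≤ (t : ℝ) ^ (1 / 2 - κ) := by
    rw [hD]; exact Nat.floor_le (Real.rpow_nonneg ht0.le _)
  refine ⟨U \ Bd b c D, ?_, ?_⟩
  · intro p hp
    rw [Finset.mem_sdiff, hU, mem_biUnion] at hp
    obtain ⟨⟨q, hq, hpq⟩, hpB⟩ := hp
    simp only [mem_filter, mem_Ioc] at hq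
    simp only [P1, mem_filter, mem_Icc] at hpq
    have hqy : (t : ℝ) ^ (1 / 2 + κ) < q := by
      have : (y : ℝ) + 1 ≤ q := by exact_mod_cast hq.1.1
      linarith
    obtain ⟨g1, g2, g3⟩ := good_of hb hc hpq.2.1 hpq.1.2 hq.2 hq.1.1 hpq.2.2 (D := D) (by
      intro d hd
      rw [hD]
      apply Nat.le_floor
      have h1 : (d : ℝ) * q < t := by exact_mod_cast hd
      have h2 : (d : ℝ) * (t : ℝ) ^ (1 / 2 + κ) ≤ t := by
        calc (d : ℝ) * (t : ℝ) ^ (1 / 2 + κ) ≤ (d : ℝ) * q :=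
              mul_le_mul_of_nonneg_left hqy.le (Nat.cast_nonneg _)
          _ ≤ _ := h1.le
      have h4 : (t : ℝ) = (t : ℝ) ^ (1 / 2 - κ) * (t : ℝ) ^ (1 / 2 + κ) := by
        rw [← Real.rpow_add ht0]
        have : (1 : ℝ) / 2 - κ + (1 / 2 + κ) = 1 := by ring
        rw [this, Real.rpow_one]
      have h5 : (d : ℝ) * (t : ℝ) ^ (1 / 2 + κ) ≤ (t : ℝ) ^ (1 / 2 - κ) * (t : ℝ) ^ (1 / 2 + κ) := by
        rw [← h4]; exact h2
      exact le_of_mul_le_mul_right h5 (Real.rpow_pos_of_pos ht0 _)) hpB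
    refine ⟨hpq.2.1, hpq.1.2, g1, g2, fun m hm1 hm => g3 m hm1 ?_⟩
    have : (m : ℝ) < y + 1 := lt_trans hm hylt
    have : m < y + 1 := by exact_mod_cast this
    omega
  · have h1 : (U.card : ℝ) ≤ ((U \ Bd b c D).card : ℝ) + (Bd b c D).card := by
      have := card_le_card_sdiff_add_card (s := U) (t := Bd b c D)
      exact_mod_cast this
    have h2 : ((Bd b c D).card : ℝ) ≤ M * (D : ℝ) ^ 2 + K := by
      have := Bd_card hb c D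
      have h3 : ((Bd b c D).card : ℝ) ≤
          ((b.natAbs : ℝ) + 1) * (D : ℝ) ^ 2 + ((b * c).natAbs.primeFactors.card : ℝ) := by
        exact_mod_cast this
      rw [hM, hK]; linarith
    have hD2 : (D : ℝ) ^ 2 ≤ (t : ℝ) ^ (1 - 2 * κ) := by
      calc (D : ℝ) ^ 2 ≤ ((t : ℝ) ^ (1 / 2 - κ)) ^ 2 := pow_le_pow_left₀ (Nat.cast_nonneg _) hDle 2
        _ = _ := by
          rw [← Real.rpow_natCast, ← Real.rpow_mul ht0.le]
          congr 1; push_cast; ring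
    have h5 : (t : ℝ) ^ (1 - 2 * κ) * (t : ℝ) ^ (2 * κ) = t := by
      rw [← Real.rpow_add ht0]
      have : (1 : ℝ) - 2 * κ + 2 * κ = 1 := by ring
      rw [this, Real.rpow_one]
    have h6 : M * (t : ℝ) ^ (1 - 2 * κ) ≤ c₀ / 4 * (t / Real.log t) := by
      rw [mul_div_assoc', le_div_iff₀ hlog]
      calc M * (t : ℝ) ^ (1 - 2 * κ) * Real.log t
          ≤ M * (t : ℝ) ^ (1 - 2 * κ) * (c₀ / (4 * M) * (t : ℝ) ^ (2 * κ)) :=
            mul_le_mul_of_nonneg_left hl1 (by positivity)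
        _ = c₀ / 4 * ((t : ℝ) ^ (1 - 2 * κ) * (t : ℝ) ^ (2 * κ)) := by field_simp
        _ = _ := by rw [h5]
    have h7 : K ≤ c₀ / 4 * (t / Real.log t) := by
      rw [Real.rpow_one] at hl2
      rw [mul_div_assoc', le_div_iff₀ hlog]
      calc K * Real.log t ≤ K * (c₀ / (4 * K) * t) := mul_le_mul_of_nonneg_left hl2 hK0.le
        _ = _ := by field_simp
    have h8 : M * (D : ℝ) ^ 2 ≤ M * (t : ℝ) ^ (1 - 2 * κ) := mul_le_mul_of_nonneg_left hD2 hM0.le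
    rw [← hUcard] at hg
    have h9 : c₀ * (t / Real.log t) = c₀ / 2 * (t / Real.log t) + c₀ / 4 * (t / Real.log t) +
        c₀ / 4 * (t / Real.log t) := by ring
    linarith

end Pool.Agent.Helper500_CC
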