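import Pool.Agent.Helper500_CC.Sieve
import Pool.Agent.Helper500_CC.Good

/-! Long runs without small prime factors in the orbits of `x ↦ b x + c` are rare. -/

set_option autoImplicit false

open Finset Filter

namespace Pool.Agent.Helper500_CC

lemma choose_lower {n r : ℕ} (hr : 1 ≤ r) (h : 2 * r ≤ n) :
    ((n : ℝ) / (2 * r)) ^ r ≤ (n.choose r : ℝ) := by
  have h1 := Nat.pow_le_choose (α := ℝ) r n
  have hf : (r.factorial : ℝ) ≤ (r : ℝ) ^ r := by exact_mod_cast Nat.factorial_le_pow r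
  have hr0 : (0 : ℝ) < r := by exact_mod_cast hr
  have h2 : (n : ℝ) / 2 ≤ ((n + 1 - r : ℕ) : ℝ) := by
    have h3 : n ≤ 2 * (n + 1 - r) := by omega
    have h4 : (n : ℝ) ≤ 2 * ((n + 1 - r : ℕ) : ℝ) := by exact_mod_cast h3
    linarith
  refine le_trans ?_ h1
  have hf0 : (0 : ℝ) < r.factorial := by exact_mod_cast r.factorial_pos
  calc ((n : ℝ) / (2 * r)) ^ r = ((n : ℝ) / 2) ^ r / (r : ℝ) ^ r := by
        rw [← div_pow]; congr 1; field_simp
    _ ≤ ((n + 1 - r : ℕ) : ℝ) ^ r / r.factorial :=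
        div_le_div₀ (by positivity) (pow_le_pow_left₀ (by positivity) h2 r) hf0 hf

theorem main : ∃ ϑ : ℝ, 1 / 2 < ϑ ∧ ϑ ≤ 3 / 4 ∧ ∀ b c : ℤ, 2 ≤ |b| → c ≠ 0 → ∀ C ε : ℝ, 1 < C →
    0 < ε → ∀ᶠ X : ℕ in atTop, ∀ i : ℕ, ∀ Y : ℤ, ∀ A : Finset ℤ, A ⊆ Ioc Y (Y + X) →
    (∀ n ∈ A, ∀ j : ℕ, (j : ℝ) < Real.log X ^ C → ∀ q : ℕ, q.Prime →
      (q : ℝ) ≤ Real.log X ^ (C / ϑ) → ¬ (q : ℤ) ∣ (step b c)^[i + j] n) →
    (A.card : ℝ) ≤ (X : ℝ) ^ (1 - ϑ / 2 * (1 - 1 / C) + ε) := by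
  obtain ⟨ϑ, c₀, h1, h2, h3, hg⟩ := good
  refine ⟨ϑ, h1, h2, fun b c hb hc C ε hC hε => ?_⟩
  obtain ⟨T₀, hT₀⟩ := hg b c hb hc
  have hϑ0 : 0 < ϑ := by linarith
  have hC0 : 0 < C := by linarith
  obtain ⟨δ, hδ⟩ : ∃ δ : ℝ, δ = min (ε / 2) (1 / 2) := ⟨_, rfl⟩
  have hδ0 : 0 < δ := by rw [hδ]; exact lt_min (by linarith) (by norm_num)
  have hδ1 : δ ≤ 1 / 2 := by rw [hδ]; exact min_le_right _ _
  have hδε : δ ≤ ε / 2 := by rw [hδ]; exact min_le_left _ _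
  have hCϑ : 1 < C / ϑ := by
    rw [lt_div_iff₀ hϑ0]; linarith
  have hev : ∀ᶠ L : ℝ in atTop, 3 ≤ L ∧ (T₀ : ℝ) + 4 ≤ L ^ (C / ϑ) ∧ 4 ≤ L ^ C ∧
      2 / c₀ ≤ L ^ (C / ϑ - 1) ∧ -Real.log (c₀ / 4) / (δ * (C - 1)) ≤ Real.log L ∧
      Real.log L ≤ δ * ϑ / (2 * C) * L ^ (1 : ℝ) ∧ Real.log 12 / (ε / 2) ≤ L := by
    have e2 := (tendsto_rpow_atTop (by linarith : 0 < C / ϑ)).eventually_ge_atTop ((T₀ : ℝ) + 4)
    have e3 := (tendsto_rpow_atTop hC0).eventually_ge_atTop 4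
    have e4 := (tendsto_rpow_atTop (by linarith : 0 < C / ϑ - 1)).eventually_ge_atTop (2 / c₀)
    have e5 := Real.tendsto_log_atTop.eventually_ge_atTop (-Real.log (c₀ / 4) / (δ * (C - 1)))
    have e6 := (isLittleO_log_rpow_atTop (one_pos : (0 : ℝ) < 1)).bound
      (show 0 < δ * ϑ / (2 * C) by positivity)
    filter_upwards [eventually_ge_atTop 3, e2, e3, e4, e5, e6,
      eventually_ge_atTop (Real.log 12 / (ε / 2))] with L g1 g2 g3 g4 g5 g6 g7
    have hx0 : 0 < L := by linarith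
    rw [Real.norm_of_nonneg (Real.log_nonneg (by linarith)),
      Real.norm_of_nonneg (Real.rpow_nonneg hx0.le _)] at g6
    exact ⟨g1, g2, g3, g4, g5, g6, g7⟩
  have hlogX : Tendsto (fun X : ℕ => Real.log (X : ℝ)) atTop atTop :=
    Real.tendsto_log_atTop.comp tendsto_natCast_atTop_atTop
  filter_upwards [hlogX.eventually hev] with X hX i Y A hA hAn
  obtain ⟨L, hL⟩ : ∃ L : ℝ, L = Real.log X := ⟨_, rfl⟩
  rw [← hL] at hX hAn
  obtain ⟨g1, g2, g3, g4, g5, g6, g7⟩ := hX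
  have hL0 : 0 < L := by linarith
  have hXne : (X : ℝ) ≠ 0 := by
    intro h0
    rw [h0, Real.log_zero] at hL
    linarith
  have hX0 : (0 : ℝ) < X := lt_of_le_of_ne (Nat.cast_nonneg _) (Ne.symm hXne)
  have hXexp : (X : ℝ) = Real.exp L := by rw [hL, Real.exp_log hX0]
  obtain ⟨l, hl⟩ : ∃ l : ℝ, l = Real.log L := ⟨_, rfl⟩
  rw [← hl] at g5 g6
  have hl0 : 0 < l := by rw [hl]; exact Real.log_pos (by linarith)
  obtain ⟨τ, hτ⟩ : ∃ τ : ℝ, τ = L ^ (C / ϑ) := ⟨_, rfl⟩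
  rw [← hτ] at g2 hAn
  have hT₀0 : (0 : ℝ) ≤ T₀ := Nat.cast_nonneg _
  have hτ4 : 4 ≤ τ := by linarith
  obtain ⟨t, ht⟩ : ∃ t : ℕ, t = ⌊τ⌋₊ := ⟨_, rfl⟩
  have ht_le : (t : ℝ) ≤ τ := by rw [ht]; exact Nat.floor_le (by linarith)
  have ht_lt : τ < t + 1 := by rw [ht]; exact Nat.lt_floor_add_one _
  have htT : T₀ ≤ t := by
    have : (T₀ : ℝ) ≤ t := by linarith
    exact_mod_cast this
  have ht3 : (3 : ℝ) ≤ t := by linarith
  have ht0 : (0 : ℝ) < t := by linarith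
  have htτ : τ / 2 ≤ t := by linarith
  obtain ⟨P, hP, hPc⟩ := hT₀ t htT
  obtain ⟨u, hu⟩ : ∃ u : ℝ, u = Real.log t := ⟨_, rfl⟩
  rw [← hu] at hPc
  have hu0 : 0 < u := by rw [hu]; exact Real.log_pos (by linarith)
  have hul : u ≤ C / ϑ * l := by
    have : Real.log τ = C / ϑ * l := by rw [hτ, Real.log_rpow hL0, hl]
    rw [← this, hu]
    exact Real.log_le_log ht0 ht_le
  obtain ⟨Z, hZ⟩ : ∃ Z : ℝ, Z = ϑ * L / (2 * C * l) := ⟨_, rfl⟩
  have hZ0 : 0 < Z := by rw [hZ]; positivity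
  have hδZ : 1 ≤ δ * Z := by
    rw [hZ, mul_div_assoc', le_div_iff₀ (by positivity), one_mul]
    rw [Real.rpow_one] at g6
    have h4 : δ * ϑ / (2 * C) * L = δ * (ϑ * L) / (2 * C) := by ring
    rw [h4, le_div_iff₀ (by positivity)] at g6
    linarith
  obtain ⟨r, hr⟩ : ∃ r : ℕ, r = ⌊L / (2 * u)⌋₊ := ⟨_, rfl⟩
  have hr_le : (r : ℝ) ≤ L / (2 * u) := by rw [hr]; exact Nat.floor_le (by positivity)
  have hr_lt : L / (2 * u) < r + 1 := by rw [hr]; exact Nat.lt_floor_add_one _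
  have hru : 2 * r * u ≤ L := by
    rw [le_div_iff₀ (by positivity)] at hr_le
    linarith
  have hZu : Z ≤ L / (2 * u) := by
    rw [hZ, div_le_div_iff₀ (by positivity) (by positivity)]
    have h4 : ϑ * u ≤ C * l := by
      have := mul_le_mul_of_nonneg_left hul hϑ0.le
      have h5 : ϑ * (C / ϑ * l) = C * l := by field_simp
      linarith
    calc ϑ * L * (2 * u) = 2 * L * (ϑ * u) := by ring
      _ ≤ 2 * L * (C * l) := mul_le_mul_of_nonneg_left h4 (by positivity)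
      _ = L * (2 * C * l) := by ring
  have hrZ : (1 - δ) * Z ≤ r := by
    have : Z - 1 < r := by linarith
    have h4 : (1 - δ) * Z = Z - δ * Z := by ring
    rw [h4]
    linarith
  have hZ2 : 2 ≤ Z := by
    have : δ * Z ≤ 1 / 2 * Z := mul_le_mul_of_nonneg_right hδ1 hZ0.le
    linarith
  have hr1 : 1 ≤ r := by
    have : (1 : ℝ) < r := by linarith
    have : 1 < r := by exact_mod_cast this
    omega
  have hr0 : (0 : ℝ) < r := by exact_mod_cast hr1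
  obtain ⟨W, hW⟩ : ∃ W : ℕ, W = ⌊(t : ℝ) ^ ϑ⌋₊ := ⟨_, rfl⟩
  have hW_le : (W : ℝ) ≤ (t : ℝ) ^ ϑ := by rw [hW]; exact Nat.floor_le (by positivity)
  have hW_lt : (t : ℝ) ^ ϑ < W + 1 := by rw [hW]; exact Nat.lt_floor_add_one _
  have hτϑ : τ ^ ϑ = L ^ C := by
    rw [hτ, ← Real.rpow_mul hL0.le]
    congr 1
    field_simp
  have hWL : L ^ C / 4 ≤ W := by
    have h4 : (τ / 2) ^ ϑ ≤ (t : ℝ) ^ ϑ := Real.rpow_le_rpow (by positivity) htτ hϑ0.le
    have h5 : (τ / 2) ^ ϑ = L ^ C / 2 ^ ϑ := by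
      rw [Real.div_rpow (by linarith) (by norm_num), hτϑ]
    have h6 : (2 : ℝ) ^ ϑ ≤ 2 := by
      calc (2 : ℝ) ^ ϑ ≤ 2 ^ (1 : ℝ) := Real.rpow_le_rpow_of_exponent_le (by norm_num) (by linarith)
        _ = 2 := Real.rpow_one 2
    have h7 : L ^ C / 2 ≤ L ^ C / 2 ^ ϑ :=
      div_le_div_of_nonneg_left (by positivity) (by positivity) h6
    linarith
  -- the sieve
  have hX2 : (t ^ r) ^ 2 ≤ X := by
    have : (((t : ℝ) ^ r) ^ 2) ≤ X := by
      rw [hXexp, ← pow_mul]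
      calc (t : ℝ) ^ (r * 2) = Real.exp ((r * 2 : ℕ) * u) := by
            rw [Real.exp_nat_mul, hu, Real.exp_log ht0]
        _ ≤ Real.exp L := by
            apply Real.exp_le_exp.2
            push_cast
            linarith
    exact_mod_cast this
  have hsieve := bound b c Y i (X := X) (T := t) (r := r) (W := W) P (fun q hq => by
      obtain ⟨p1, p2, p3, p4, p5⟩ := hP q hq
      refine ⟨p1, p2, p3, p4, fun m hm1 hmW => p5 m hm1 ?_⟩
      have : (m : ℝ) < W := by exact_mod_cast hmW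
      linarith) A hA (fun n hn j hj q hq => by
      obtain ⟨p1, p2, p3, p4, p5⟩ := hP q hq
      refine hAn n hn j ?_ q p1 ?_
      · have h4 : (j : ℝ) < W := by exact_mod_cast hj
        have h5 : (t : ℝ) ^ ϑ ≤ τ ^ ϑ := Real.rpow_le_rpow ht0.le ht_le hϑ0.le
        rw [hτϑ] at h5
        linarith
      · have : (q : ℝ) ≤ t := by exact_mod_cast p2
        linarith) hX2 (by exact_mod_cast ht0)
  have hLt : L ≤ c₀ * t := by
    have h4 : τ = L ^ (C / ϑ - 1) * L := by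
      rw [hτ, ← Real.rpow_add_one hL0.ne']
      congr 1; ring
    have h5 : 2 / c₀ * L ≤ τ := by
      rw [h4]; exact mul_le_mul_of_nonneg_right g4 hL0.le
    have h6 : L = c₀ / 2 * (2 / c₀ * L) := by field_simp
    calc L = c₀ / 2 * (2 / c₀ * L) := h6
      _ ≤ c₀ / 2 * τ := mul_le_mul_of_nonneg_left h5 (by positivity)
      _ = c₀ * (τ / 2) := by ring
      _ ≤ c₀ * t := mul_le_mul_of_nonneg_left htτ h3.le
  have hPr : 2 * r ≤ P.card := by
    have h4 : (2 * r : ℝ) ≤ c₀ * (t / u) := by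
      rw [mul_div_assoc', le_div_iff₀ hu0]
      linarith
    have : ((2 * r : ℕ) : ℝ) ≤ P.card := by push_cast; linarith
    exact_mod_cast this
  have hch := choose_lower hr1 hPr
  obtain ⟨B, hB⟩ : ∃ B : ℝ, B = c₀ / 4 * L ^ (C - 1) := ⟨_, rfl⟩
  have hB0 : 0 < B := by rw [hB]; positivity
  have hBle : B ≤ (P.card : ℝ) / (2 * r) * (W / t) := by
    have h4 : L ^ C = L ^ (C - 1) * L := by
      rw [← Real.rpow_add_one hL0.ne']
      congr 1; ring
    calc B = c₀ * (L ^ C / 4) / L := by rw [hB, h4]; field_simp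
      _ ≤ c₀ * W / L := by
          apply div_le_div_of_nonneg_right _ hL0.le
          exact mul_le_mul_of_nonneg_left hWL h3.le
      _ ≤ c₀ * W / (2 * r * u) := by
          apply div_le_div_of_nonneg_left (by positivity) (by positivity) hru
      _ = c₀ * (t / u) / (2 * r) * (W / t) := by field_simp
      _ ≤ _ := by
          apply mul_le_mul_of_nonneg_right _ (by positivity)
          exact div_le_div_of_nonneg_right hPc (by positivity)
  have hBr : B ^ r ≤ (P.card.choose r : ℝ) * ((W : ℝ) / t) ^ r := by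
    calc B ^ r ≤ ((P.card : ℝ) / (2 * r) * (W / t)) ^ r := pow_le_pow_left₀ hB0.le hBle r
      _ = ((P.card : ℝ) / (2 * r)) ^ r * ((W : ℝ) / t) ^ r := mul_pow _ _ _
      _ ≤ _ := mul_le_mul_of_nonneg_right hch (by positivity)
  have hAB : (A.card : ℝ) * B ^ r ≤ 12 * X :=
    (mul_le_mul_of_nonneg_left hBr (Nat.cast_nonneg _)).trans hsieve
  obtain ⟨E, hE⟩ : ∃ E : ℝ, E = ϑ / 2 * (1 - 1 / C) := ⟨_, rfl⟩
  have h1C : 0 < 1 - 1 / C := by
    rw [sub_pos, div_lt_one hC0]; exact hC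
  have hE0 : 0 < E := by rw [hE]; positivity
  have hE1 : E ≤ 1 / 2 := by
    rw [hE]
    have h4 : 1 - 1 / C ≤ 1 := by
      have : 0 < 1 / C := by positivity
      linarith
    calc ϑ / 2 * (1 - 1 / C) ≤ ϑ / 2 * 1 := mul_le_mul_of_nonneg_left h4 (by positivity)
      _ ≤ 1 / 2 := by linarith
  have hlogB : (1 - δ) * ((C - 1) * l) ≤ Real.log B := by
    have h4 : Real.log B = Real.log (c₀ / 4) + (C - 1) * l := by
      rw [hB, Real.log_mul (by positivity) (by positivity), Real.log_rpow hL0, hl]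
    rw [div_le_iff₀ (mul_pos hδ0 (by linarith))] at g5
    rw [h4]
    have h5 : (1 - δ) * ((C - 1) * l) = (C - 1) * l - l * (δ * (C - 1)) := by ring
    rw [h5]
    linarith
  have hexp : (1 - δ) ^ 2 * E * L ≤ r * Real.log B := by
    have h4 : Z * ((C - 1) * l) = E * L := by
      rw [hZ, hE]; field_simp
    have h5 : 0 ≤ (1 - δ) * ((C - 1) * l) := by
      apply mul_nonneg (by linarith)
      apply mul_nonneg (by linarith) hl0.le
    calc (1 - δ) ^ 2 * E * L = (1 - δ) * Z * ((1 - δ) * ((C - 1) * l)) := by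
          linear_combination (-(1 - δ) ^ 2) * h4
      _ ≤ r * ((1 - δ) * ((C - 1) * l)) := mul_le_mul_of_nonneg_right hrZ h5
      _ ≤ r * Real.log B := mul_le_mul_of_nonneg_left hlogB hr0.le
  have hBexp : Real.exp ((1 - δ) ^ 2 * E * L) ≤ B ^ r := by
    calc Real.exp ((1 - δ) ^ 2 * E * L) ≤ Real.exp (r * Real.log B) := Real.exp_le_exp.2 hexp
      _ = B ^ r := by rw [Real.exp_nat_mul, Real.exp_log hB0]
  have hA1 : (A.card : ℝ) * Real.exp ((1 - δ) ^ 2 * E * L) ≤ Real.exp (Real.log 12 + L) := by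
    rw [Real.exp_add, Real.exp_log (by norm_num), ← hXexp]
    exact (mul_le_mul_of_nonneg_left hBexp (Nat.cast_nonneg _)).trans hAB
  have hfin : (A.card : ℝ) ≤ Real.exp (Real.log 12 + L - (1 - δ) ^ 2 * E * L) := by
    rw [Real.exp_sub, le_div_iff₀ (Real.exp_pos _)]
    exact hA1
  refine hfin.trans ?_
  rw [← hE, hXexp, ← Real.exp_mul]
  apply Real.exp_le_exp.2
  rw [div_le_iff₀ (by linarith)] at g7
  have h4 : E - δ ≤ (1 - δ) ^ 2 * E := by
    have e1 : (1 - δ) ^ 2 * E = E - 2 * (δ * E) + δ ^ 2 * E := by ring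
    have e2 : 0 ≤ δ ^ 2 * E := by positivity
    have e3 : δ * E ≤ δ * (1 / 2) := mul_le_mul_of_nonneg_left hE1 hδ0.le
    rw [e1]
    linarith
  have h5 : (E - δ) * L ≤ (1 - δ) ^ 2 * E * L := mul_le_mul_of_nonneg_right h4 hL0.le
  have h6 : δ * L ≤ ε / 2 * L := mul_le_mul_of_nonneg_right hδε hL0.le
  linarith

end Pool.Agent.Helper500_CC
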