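import Pool.Agent.H174R3.D6.TaskLS

/-! Long runs without small prime factors in the orbits of `x ↦ b x + c`: the sieve. -/

set_option autoImplicit false

open Finset

namespace Pool.Agent.Helper500_CC

open Pool.Agent.H295R3.D6

/-- the large sieve with `≥ W` classes removed for each prime of `P` -/
theorem sieve {X T r W : ℕ} (P : Finset ℕ) (I : ℕ → Finset ℕ) (A : Finset ℕ)
    (hP : ∀ q ∈ P, q.Prime ∧ q ≤ T) (hI : ∀ q ∈ P, I q ⊆ range q ∧ W ≤ (I q).card)
    (hA : A ⊆ Icc 1 X) (hAI : ∀ n ∈ A, ∀ q ∈ P, n % q ∉ I q)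
    (hT : (T ^ r) ^ 2 ≤ X) (hT0 : 0 < T) :
    (A.card : ℝ) * ((P.card.choose r : ℝ) * ((W : ℝ) / T) ^ r) ≤ 12 * X := by
  classical
  have hTR : (0 : ℝ) < T := by exact_mod_cast hT0
  obtain ⟨E, hE⟩ : ∃ E : ℝ, E = ∑ s ∈ P.powersetCard r, ∏ q ∈ s, ((I q).card : ℝ) / q := ⟨_, rfl⟩
  have hE0 : 0 ≤ E := by
    rw [hE]
    exact sum_nonneg fun s _ => prod_nonneg fun q _ => div_nonneg (Nat.cast_nonneg _) (Nat.cast_nonneg _)
  have hlow : (P.card.choose r : ℝ) * ((W : ℝ) / T) ^ r ≤ E := by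
    rw [hE]
    calc (P.card.choose r : ℝ) * ((W : ℝ) / T) ^ r = ∑ _s ∈ P.powersetCard r, ((W : ℝ) / T) ^ r := by
          rw [sum_const, card_powersetCard, nsmul_eq_mul]
      _ ≤ _ := by
          refine sum_le_sum fun s hs => ?_
          rw [mem_powersetCard] at hs
          calc ((W : ℝ) / T) ^ r = ∏ _q ∈ s, ((W : ℝ) / T) := by rw [prod_const, hs.2]
            _ ≤ _ := by
                refine prod_le_prod (fun q _ => by positivity) fun q hq => ?_
                have h1 := hP q (hs.1 hq)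
                have h2 := hI q (hs.1 hq)
                have hq0 : (0 : ℝ) < q := by exact_mod_cast h1.1.pos
                have h3 : (W : ℝ) ≤ (I q).card := by exact_mod_cast h2.2
                have h4 : (q : ℝ) ≤ T := by exact_mod_cast h1.2
                exact div_le_div₀ (Nat.cast_nonneg _) h3 hq0 h4
  have hls := H174R3.D6LS.taskLS X (T ^ r) P I (P.powersetCard r) (fun _ => 1)
    (fun q hq => (hP q hq).1) (fun q hq => (hI q hq).1) (by
      intro s hs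
      rw [mem_powersetCard] at hs
      refine ⟨hs.1, ?_⟩
      calc ∏ q ∈ s, q ≤ ∏ _q ∈ s, T := prod_le_prod' fun q hq => (hP q (hs.1 hq)).2
        _ = T ^ r := by rw [prod_const, hs.2])
  have hR : ∑ s ∈ P.powersetCard r, (1 : ℝ) ^ 2 * ∏ q ∈ s, ((I q).card : ℝ) / q = E := by
    rw [hE]
    exact sum_congr rfl fun s _ => by rw [one_pow, one_mul]
  rw [hR] at hls
  have hin : ∀ n ∈ A, (∑ s ∈ P.powersetCard r, (1 : ℝ) * ∏ q ∈ s,
        ((if n % q ∈ I q then (1 : ℝ) else 0) - ((I q).card : ℝ) / q)) = (-1) ^ r * E := by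
    intro n hn
    rw [hE, mul_sum]
    refine sum_congr rfl fun s hs => ?_
    rw [mem_powersetCard] at hs
    rw [one_mul]
    calc ∏ q ∈ s, ((if n % q ∈ I q then (1 : ℝ) else 0) - ((I q).card : ℝ) / q)
        = ∏ q ∈ s, ((-1) * (((I q).card : ℝ) / q)) := by
          refine prod_congr rfl fun q hq => ?_
          rw [if_neg (hAI n hn q (hs.1 hq))]
          ring
      _ = _ := by rw [prod_mul_distrib, prod_const, hs.2]
  have hL : (A.card : ℝ) * E ^ 2 ≤ 12 * X * E := by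
    calc (A.card : ℝ) * E ^ 2 = ∑ n ∈ A, (∑ s ∈ P.powersetCard r, (1 : ℝ) * ∏ q ∈ s,
          ((if n % q ∈ I q then (1 : ℝ) else 0) - ((I q).card : ℝ) / q)) ^ 2 := by
          rw [sum_congr rfl (fun n hn => by rw [hin n hn]), sum_const, nsmul_eq_mul, mul_pow,
            ← pow_mul, mul_comm r 2, pow_mul]
          norm_num
      _ ≤ ∑ n ∈ Icc 1 X, (∑ s ∈ P.powersetCard r, (1 : ℝ) * ∏ q ∈ s,
          ((if n % q ∈ I q then (1 : ℝ) else 0) - ((I q).card : ℝ) / q)) ^ 2 :=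
          sum_le_sum_of_subset_of_nonneg hA fun n _ _ => sq_nonneg _
      _ ≤ _ := hls
      _ ≤ _ := by
          have h1 : (((T ^ r : ℕ) : ℝ)) ^ 2 ≤ X := by exact_mod_cast hT
          have h2 : (6 : ℝ) * ((X : ℝ) + (((T ^ r : ℕ) : ℝ)) ^ 2) ≤ 12 * X := by linarith
          exact mul_le_mul_of_nonneg_right h2 hE0
  have hA0 : (0 : ℝ) ≤ A.card := Nat.cast_nonneg _
  have hmain : (A.card : ℝ) * E ≤ 12 * X := by
    rcases hE0.eq_or_lt with h | h
    · rw [← h, mul_zero]; positivity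
    · have h1 : ((A.card : ℝ) * E) * E ≤ (12 * X) * E := by
        calc ((A.card : ℝ) * E) * E = (A.card : ℝ) * E ^ 2 := by ring
          _ ≤ _ := hL
      exact le_of_mul_le_mul_right h1 h
  exact (mul_le_mul_of_nonneg_left hlow hA0).trans hmain

/-! ### the residue classes -/

/-- the map `x ↦ b x + c` -/
def step (b c x : ℤ) : ℤ := b * x + c

lemma iterate_cast (b c : ℤ) (q j : ℕ) (x : ℤ) :
    (((step b c)^[j] x : ℤ) : ZMod q) = (fun y : ZMod q => (b : ZMod q) * y + c)^[j] (x : ZMod q) := by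
  induction j with
  | zero => rfl
  | succ j ih =>
    rw [Function.iterate_succ_apply', Function.iterate_succ_apply', ← ih]
    unfold step
    push_cast
    rfl

lemma iterate_zero_mul {R : Type*} [CommRing R] (b c : R) (m : ℕ) :
    (b - 1) * ((fun y : R => b * y + c)^[m] 0) = c * (b ^ m - 1) := by
  induction m with
  | zero => simp
  | succ m ih =>
    rw [Function.iterate_succ_apply']
    have : (b - 1) * (b * ((fun y : R => b * y + c)^[m] 0) + c) =
        b * ((b - 1) * ((fun y : R => b * y + c)^[m] 0)) + (b - 1) * c := by ring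
    rw [this, ih]
    ring

/-- the preimages of `0` -/
noncomputable def hz (b c : ℤ) (q j : ℕ) : ZMod q :=
  (fun y : ZMod q => (b : ZMod q)⁻¹ * (y - c))^[j] 0

/-- the removed classes -/
noncomputable def Iq (b c Y : ℤ) (i W q : ℕ) : Finset ℕ :=
  (range W).image (fun j => (hz b c q (i + j) - (Y : ZMod q)).val)

lemma Iq_sub (b c Y : ℤ) (i W q : ℕ) (hq : q.Prime) : Iq b c Y i W q ⊆ range q := by
  have : NeZero q := ⟨hq.ne_zero⟩
  intro a ha
  unfold Iq at ha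
  rw [mem_image] at ha
  obtain ⟨j, _, rfl⟩ := ha
  exact mem_range.2 (ZMod.val_lt _)

lemma hz_spec (b c : ℤ) (q j : ℕ) (hq : q.Prime) (hb : ¬ (q : ℤ) ∣ b) :
    (fun y : ZMod q => (b : ZMod q) * y + c)^[j] (hz b c q j) = 0 := by
  have : Fact q.Prime := ⟨hq⟩
  have hb0 : (b : ZMod q) ≠ 0 := by
    rwa [Ne, ZMod.intCast_zmod_eq_zero_iff_dvd]
  have hfg : Function.LeftInverse (fun y : ZMod q => (b : ZMod q) * y + c)
      (fun y : ZMod q => (b : ZMod q)⁻¹ * (y - c)) := by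
    intro y
    simp only
    rw [← mul_assoc, mul_inv_cancel₀ hb0, one_mul, sub_add_cancel]
  exact hfg.iterate j 0

lemma Iq_card (b c Y : ℤ) (i₀ W q : ℕ) (hq : q.Prime) (hb : ¬ (q : ℤ) ∣ b) (hc : ¬ (q : ℤ) ∣ c)
    (hm : ∀ m : ℕ, 1 ≤ m → m < W → ¬ (q : ℤ) ∣ b ^ m - 1) : W ≤ (Iq b c Y i₀ W q).card := by
  have : Fact q.Prime := ⟨hq⟩
  have hc0 : (c : ZMod q) ≠ 0 := by
    rwa [Ne, ZMod.intCast_zmod_eq_zero_iff_dvd]
  unfold Iq
  rw [card_image_of_injOn, card_range]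
  have key : ∀ i j : ℕ, i < j → j < W → hz b c q (i₀ + i) ≠ hz b c q (i₀ + j) := by
    intro i j hij hj he
    obtain ⟨m, rfl⟩ : ∃ m, j = m + i := ⟨j - i, by omega⟩
    have h1 := hz_spec b c q (i₀ + (m + i)) hq hb
    rw [← he, show i₀ + (m + i) = m + (i₀ + i) by ring, Function.iterate_add_apply,
      hz_spec b c q (i₀ + i) hq hb] at h1
    have h2 := iterate_zero_mul (b : ZMod q) (c : ZMod q) m
    rw [h1, mul_zero] at h2
    have h3 : ((b : ZMod q) ^ m - 1) = 0 := by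
      rcases mul_eq_zero.1 h2.symm with h | h
      · exact absurd h hc0
      · exact h
    refine hm m (by omega) (by omega) ?_
    rw [← ZMod.intCast_zmod_eq_zero_iff_dvd]
    push_cast
    exact h3
  intro i hi j hj hij
  simp only [coe_range, Set.mem_Iio] at hi hj
  have h1 : hz b c q (i₀ + i) = hz b c q (i₀ + j) := by
    have := ZMod.val_injective q hij
    simpa using this
  rcases lt_trichotomy i j with h | h | h
  · exact absurd h1 (key i j h hj)
  · exact h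
  · exact absurd h1.symm (key j i h hi)

lemma mem_Iq (b c Y : ℤ) (i W q n : ℕ) (hq : q.Prime) (hb : ¬ (q : ℤ) ∣ b)
    (h : n % q ∈ Iq b c Y i W q) : ∃ j < W, (q : ℤ) ∣ (step b c)^[i + j] ((n : ℤ) + Y) := by
  have : Fact q.Prime := ⟨hq⟩
  unfold Iq at h
  rw [mem_image] at h
  obtain ⟨j, hj, he⟩ := h
  refine ⟨j, mem_range.1 hj, ?_⟩
  have h1 : (n : ZMod q) = hz b c q (i + j) - (Y : ZMod q) := by
    have h2 : (((n % q : ℕ) : ℕ) : ZMod q) = (n : ZMod q) := ZMod.natCast_mod n q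
    rw [← h2, ← he, ZMod.natCast_zmod_val]
  rw [← ZMod.intCast_zmod_eq_zero_iff_dvd, iterate_cast]
  push_cast
  rw [h1, sub_add_cancel]
  exact hz_spec b c q (i + j) hq hb

/-- The bound for the integers in an interval. -/
theorem bound (b c Y : ℤ) (i : ℕ) {X T r W : ℕ} (P : Finset ℕ)
    (hP : ∀ q ∈ P, q.Prime ∧ q ≤ T ∧ ¬ (q : ℤ) ∣ b ∧ ¬ (q : ℤ) ∣ c ∧
      ∀ m : ℕ, 1 ≤ m → m < W → ¬ (q : ℤ) ∣ b ^ m - 1)
    (A : Finset ℤ) (hA : A ⊆ Ioc Y (Y + X))
    (hAP : ∀ n ∈ A, ∀ j < W, ∀ q ∈ P, ¬ (q : ℤ) ∣ (step b c)^[i + j] n)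
    (hT : (T ^ r) ^ 2 ≤ X) (hT0 : 0 < T) :
    (A.card : ℝ) * ((P.card.choose r : ℝ) * ((W : ℝ) / T) ^ r) ≤ 12 * X := by
  classical
  have hinj : Set.InjOn (fun n : ℤ => (n - Y).toNat) (A : Set ℤ) := by
    intro n hn m hm h
    have h1 := mem_Ioc.1 (hA hn)
    have h2 := mem_Ioc.1 (hA hm)
    simp only at h
    omega
  rw [← card_image_of_injOn hinj]
  refine sieve P (Iq b c Y i W) _ (fun q hq => ⟨(hP q hq).1, (hP q hq).2.1⟩)
    (fun q hq => ⟨Iq_sub b c Y i W q (hP q hq).1, Iq_card b c Y i W q (hP q hq).1 (hP q hq).2.2.1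
      (hP q hq).2.2.2.1 (hP q hq).2.2.2.2⟩) ?_ ?_ hT hT0
  · intro a ha
    rw [mem_image] at ha
    obtain ⟨n, hn, rfl⟩ := ha
    have h1 := mem_Ioc.1 (hA hn)
    rw [mem_Icc]
    omega
  · intro a ha q hq hmem
    rw [mem_image] at ha
    obtain ⟨n, hn, rfl⟩ := ha
    have h1 := mem_Ioc.1 (hA hn)
    obtain ⟨j, hj, hd⟩ := mem_Iq b c Y i W q _ (hP q hq).1 (hP q hq).2.2.1 hmem
    have h2 : (((n - Y).toNat : ℕ) : ℤ) + Y = n := by omega
    rw [h2] at hd
    exact hAP n hn j hj q hq hd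

end Pool.Agent.Helper500_CC
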