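import Pool.Agent.Helper500_CC.Main

/-! Runs which start late, and runs of primes. -/

set_option autoImplicit false

open Finset Filter

namespace Pool.Agent.Helper500_CC

lemma iter_second (n : ℤ) (j : ℕ) : (step 2 (-1))^[j] n = 2 ^ j * (n - 1) + 1 := by
  induction j with
  | zero => simp
  | succ j ih => rw [Function.iterate_succ_apply', ih]; unfold step; ring

lemma iter_first (n : ℤ) (j : ℕ) : (step 2 1)^[j] n = 2 ^ j * (n + 1) - 1 := by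
  induction j with
  | zero => simp
  | succ j ih => rw [Function.iterate_succ_apply', ih]; unfold step; ring

/-- the runs which start at one of the times `≤ X ^ η` -/
theorem union {ϑ E ε η C : ℝ} {b c : ℤ} (hη : 0 ≤ η) (hε : 0 < ε)
    (h : ∀ᶠ X : ℕ in atTop, ∀ i : ℕ, ∀ Y : ℤ, ∀ A : Finset ℤ, A ⊆ Ioc Y (Y + X) →
      (∀ n ∈ A, ∀ j : ℕ, (j : ℝ) < Real.log X ^ C → ∀ q : ℕ, q.Prime →
        (q : ℝ) ≤ Real.log X ^ (C / ϑ) → ¬ (q : ℤ) ∣ (step b c)^[i + j] n) →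
      (A.card : ℝ) ≤ (X : ℝ) ^ (1 - E + ε / 2)) :
    ∀ᶠ X : ℕ in atTop, ∀ Y : ℤ, ∀ A : Finset ℤ, A ⊆ Ioc Y (Y + X) →
      (∀ n ∈ A, ∃ i : ℕ, (i : ℝ) ≤ (X : ℝ) ^ η ∧ ∀ j : ℕ, (j : ℝ) < Real.log X ^ C → ∀ q : ℕ,
        q.Prime → (q : ℝ) ≤ Real.log X ^ (C / ϑ) → ¬ (q : ℤ) ∣ (step b c)^[i + j] n) →
      (A.card : ℝ) ≤ (X : ℝ) ^ (1 - E + η + ε) := by
  classical
  have e1 := ((tendsto_rpow_atTop (by linarith : 0 < ε / 2)).comp
    tendsto_natCast_atTop_atTop).eventually_ge_atTop (2 : ℝ)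
  filter_upwards [h, e1, eventually_ge_atTop 1] with X hX h2 h1 Y A hA hAn
  have hX1 : (1 : ℝ) ≤ X := by exact_mod_cast h1
  have hX0 : (0 : ℝ) < X := by linarith
  simp only [Function.comp_apply] at h2
  obtain ⟨I, hI⟩ : ∃ I : ℕ, I = ⌊(X : ℝ) ^ η⌋₊ := ⟨_, rfl⟩
  have hIle : (I : ℝ) ≤ (X : ℝ) ^ η := by rw [hI]; exact Nat.floor_le (by positivity)
  have hη1 : 1 ≤ (X : ℝ) ^ η := Real.one_le_rpow hX1 hη
  have hsub : A ⊆ (range (I + 1)).biUnion (fun i => A.filter (fun n => ∀ j : ℕ,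
      (j : ℝ) < Real.log X ^ C → ∀ q : ℕ, q.Prime → (q : ℝ) ≤ Real.log X ^ (C / ϑ) →
      ¬ (q : ℤ) ∣ (step b c)^[i + j] n)) := by
    intro n hn
    obtain ⟨i, hi, hin⟩ := hAn n hn
    rw [mem_biUnion]
    refine ⟨i, ?_, mem_filter.2 ⟨hn, hin⟩⟩
    rw [mem_range, Nat.lt_succ_iff, hI]
    exact Nat.le_floor hi
  have hcard : (A.card : ℝ) ≤ ∑ _i ∈ range (I + 1), (X : ℝ) ^ (1 - E + ε / 2) := by
    have h3 := (card_le_card hsub).trans card_biUnion_le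
    have h4 : (A.card : ℝ) ≤ ∑ i ∈ range (I + 1), ((A.filter (fun n => ∀ j : ℕ,
      (j : ℝ) < Real.log X ^ C → ∀ q : ℕ, q.Prime → (q : ℝ) ≤ Real.log X ^ (C / ϑ) →
      ¬ (q : ℤ) ∣ (step b c)^[i + j] n)).card : ℝ) := by exact_mod_cast h3
    refine h4.trans (sum_le_sum fun i _ => ?_)
    exact hX i Y _ ((filter_subset _ _).trans hA) (fun n hn => (mem_filter.1 hn).2)
  rw [sum_const, card_range, nsmul_eq_mul] at hcard
  refine hcard.trans ?_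
  have h5 : (((I + 1 : ℕ)) : ℝ) ≤ 2 * (X : ℝ) ^ η := by push_cast; linarith
  calc ((I + 1 : ℕ) : ℝ) * (X : ℝ) ^ (1 - E + ε / 2)
      ≤ (2 * (X : ℝ) ^ η) * (X : ℝ) ^ (1 - E + ε / 2) :=
        mul_le_mul_of_nonneg_right h5 (by positivity)
    _ ≤ ((X : ℝ) ^ (ε / 2) * (X : ℝ) ^ η) * (X : ℝ) ^ (1 - E + ε / 2) := by
        apply mul_le_mul_of_nonneg_right _ (by positivity)
        exact mul_le_mul_of_nonneg_right h2 (by positivity)
    _ = _ := by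
        rw [← Real.rpow_add hX0, ← Real.rpow_add hX0]
        congr 1; ring

/-- from roughness to primality -/
theorem primes {ϑ E ε η C : ℝ} {b c : ℤ} (f : ℕ → ℕ → ℕ) (hη : 0 ≤ η) (hε : 0 < ε)
    (hE : E ≤ 1 / 2) (hf : ∀ j n : ℕ, 1 ≤ n → ((f j n : ℕ) : ℤ) = (step b c)^[j] (n : ℤ))
    (hfn : ∀ j n : ℕ, 1 ≤ n → n ≤ f j n)
    (h : ∀ᶠ X : ℕ in atTop, ∀ Y : ℤ, ∀ A : Finset ℤ, A ⊆ Ioc Y (Y + X) →
      (∀ n ∈ A, ∃ i : ℕ, (i : ℝ) ≤ (X : ℝ) ^ η ∧ ∀ j : ℕ, (j : ℝ) < Real.log X ^ C → ∀ q : ℕ,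
        q.Prime → (q : ℝ) ≤ Real.log X ^ (C / ϑ) → ¬ (q : ℤ) ∣ (step b c)^[i + j] n) →
      (A.card : ℝ) ≤ (X : ℝ) ^ (1 - E + η + ε / 2)) :
    ∀ᶠ X : ℕ in atTop, ∀ Y : ℕ, ∀ A : Finset ℕ, A ⊆ Ioc Y (Y + X) →
      (∀ n ∈ A, ∃ i : ℕ, (i : ℝ) ≤ (X : ℝ) ^ η ∧ ∀ j : ℕ, (j : ℝ) < Real.log X ^ C →
        (f (i + j) n).Prime) →
      (A.card : ℝ) ≤ (X : ℝ) ^ (1 - E + η + ε) := by
  classical
  have e1 := ((tendsto_rpow_atTop (by linarith : 0 < ε / 2)).comp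
    tendsto_natCast_atTop_atTop).eventually_ge_atTop (2 : ℝ)
  have e2 : ∀ᶠ X : ℕ in atTop, Real.log (X : ℝ) ^ (C / ϑ) ≤ (X : ℝ) ^ (1 / 2 : ℝ) := by
    have h0 := (isLittleO_log_rpow_rpow_atTop (C / ϑ) (show (0 : ℝ) < 1 / 2 by norm_num)).bound
      (show (0 : ℝ) < 1 by norm_num)
    have h3 := tendsto_natCast_atTop_atTop (R := ℝ) |>.eventually h0
    filter_upwards [h3, eventually_ge_atTop 1] with X h4 h5
    have hX1 : (1 : ℝ) ≤ X := by exact_mod_cast h5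
    rw [Real.norm_of_nonneg (Real.rpow_nonneg (Real.log_nonneg hX1) _),
      Real.norm_of_nonneg (Real.rpow_nonneg (by linarith) _), one_mul] at h4
    exact h4
  filter_upwards [h, e1, e2, eventually_ge_atTop 1] with X hX h2 h3 h1 Y A hA hAn
  have hX1 : (1 : ℝ) ≤ X := by exact_mod_cast h1
  have hX0 : (0 : ℝ) < X := by linarith
  simp only [Function.comp_apply] at h2
  have hlog0 : 0 ≤ Real.log (X : ℝ) := Real.log_nonneg hX1
  obtain ⟨τ, hτ⟩ : ∃ τ : ℝ, τ = Real.log (X : ℝ) ^ (C / ϑ) := ⟨_, rfl⟩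
  have hτ0 : 0 ≤ τ := by rw [hτ]; positivity
  -- large members
  have hbig : ((A.filter (fun n : ℕ => τ < (n : ℝ))).card : ℝ) ≤ (X : ℝ) ^ (1 - E + η + ε / 2) := by
    have hinj : Set.InjOn (fun n : ℕ => (n : ℤ)) ((A.filter (fun n : ℕ => τ < (n : ℝ)) : Finset ℕ) : Set ℕ) := by
      intro a _ b _ hab
      simpa using hab
    rw [← card_image_of_injOn hinj]
    refine hX (Y : ℤ) _ ?_ ?_
    · intro m hm
      rw [mem_image] at hm
      obtain ⟨n, hn, rfl⟩ := hm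
      have h4 := mem_Ioc.1 (hA (mem_filter.1 hn).1)
      rw [mem_Ioc]
      constructor
      · exact_mod_cast h4.1
      · exact_mod_cast h4.2
    · intro m hm
      rw [mem_image] at hm
      obtain ⟨n, hn, rfl⟩ := hm
      rw [mem_filter] at hn
      obtain ⟨i, hi, hin⟩ := hAn n hn.1
      refine ⟨i, hi, fun j hj q hq hqτ hd => ?_⟩
      have hn1 : 1 ≤ n := by
        rcases Nat.eq_zero_or_pos n with h0 | h0
        · rw [h0, Nat.cast_zero] at hn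
          linarith [hn.2]
        · exact h0
      rw [← hf (i + j) n hn1] at hd
      have h5 : q ∣ f (i + j) n := by exact_mod_cast hd
      have h6 := (Nat.prime_dvd_prime_iff_eq hq (hin j hj)).1 h5
      have h7 : (n : ℝ) ≤ q := by rw [h6]; exact_mod_cast hfn (i + j) n hn1
      rw [← hτ] at hqτ
      linarith [hn.2]
  have hsmall : ((A.filter (fun n : ℕ => ¬ τ < (n : ℝ))).card : ℝ) ≤ (X : ℝ) ^ (1 - E + η + ε / 2) := by
    have h4 : A.filter (fun n : ℕ => ¬ τ < (n : ℝ)) ⊆ Ioc 0 ⌊τ⌋₊ := by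
      intro n hn
      rw [mem_filter, not_lt] at hn
      have h5 := mem_Ioc.1 (hA hn.1)
      rw [mem_Ioc]
      exact ⟨by omega, Nat.le_floor hn.2⟩
    have h5 : ((A.filter (fun n : ℕ => ¬ τ < (n : ℝ))).card : ℝ) ≤ ⌊τ⌋₊ := by
      have := card_le_card h4
      rw [Nat.card_Ioc, Nat.sub_zero] at this
      exact_mod_cast this
    calc ((A.filter (fun n : ℕ => ¬ τ < (n : ℝ))).card : ℝ) ≤ ⌊τ⌋₊ := h5
      _ ≤ τ := Nat.floor_le hτ0
      _ ≤ (X : ℝ) ^ (1 / 2 : ℝ) := by rw [hτ]; exact h3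
      _ ≤ _ := Real.rpow_le_rpow_of_exponent_le hX1 (by linarith)
  have hsum : (A.card : ℝ) = (A.filter (fun n : ℕ => τ < (n : ℝ))).card +
      (A.filter (fun n : ℕ => ¬ τ < (n : ℝ))).card := by
    exact_mod_cast (card_filter_add_card_filter_not (s := A) (fun n : ℕ => τ < (n : ℝ))).symm
  calc (A.card : ℝ) ≤ 2 * (X : ℝ) ^ (1 - E + η + ε / 2) := by linarith
    _ ≤ (X : ℝ) ^ (ε / 2) * (X : ℝ) ^ (1 - E + η + ε / 2) :=
        mul_le_mul_of_nonneg_right h2 (by positivity)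
    _ = _ := by
        rw [← Real.rpow_add hX0]
        congr 1; ring

end Pool.Agent.Helper500_CC
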